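import Mathlib

set_option autoImplicit false

open MeasureTheory AddCircle Complex

namespace Pool.Agent.Lib.MP_84bec1_pr

instance fact2pi : Fact (0 < 2 * Real.pi) := ⟨Real.two_pi_pos⟩

/-- the circle -/
abbrev TT := AddCircle (2 * Real.pi)

/-- Gaussian coefficients -/
noncomputable def gc (t : ℝ) (n : ℤ) : ℝ := Real.exp (-t * (n : ℝ) ^ 2)

lemma gc_pos (t : ℝ) (n : ℤ) : 0 < gc t n := Real.exp_pos _

lemma gc_neg (t : ℝ) (n : ℤ) : gc t (-n) = gc t n := by
  unfold gc; push_cast; ring_nf

lemma gc_zero (t : ℝ) : gc t 0 = 1 := by simp [gc]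

lemma gc_add (s t : ℝ) (n : ℤ) : gc (s + t) n = gc s n * gc t n := by
  unfold gc; rw [← Real.exp_add]; ring_nf

lemma summable_gc {t : ℝ} (ht : 0 < t) : Summable (gc t) := by
  have h1 : Summable (fun n : ℕ => Real.exp (-t * (n : ℝ))) := by
    have := Real.summable_exp_nat_mul_iff (a := -t)
    have h2 := this.mpr (by linarith)
    refine h2.congr (fun n => by ring_nf)
  have h2 : Summable (fun n : ℕ => gc t (n : ℤ)) := by
    refine Summable.of_nonneg_of_le (fun n => (gc_pos t n).le) (fun n => ?_) h1
    unfold gc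
    apply Real.exp_le_exp.mpr
    have h3 : (n : ℝ) ≤ (n : ℝ) ^ 2 := by
      have : n ≤ n ^ 2 := by nlinarith [Nat.zero_le n, Nat.le_mul_self n]
      exact_mod_cast this
    push_cast
    nlinarith
  refine Summable.of_nat_of_neg h2 ?_
  refine h2.congr (fun n => (gc_neg t n).symm)

lemma norm_fourier (n : ℤ) (x : TT) : ‖(fourier n x : ℂ)‖ = 1 := by
  rw [fourier_apply]; exact Circle.norm_coe _

noncomputable def hC (t : ℝ) (x : TT) : ℂ := ∑' n : ℤ, (gc t n : ℂ) * fourier n x

noncomputable def h (t : ℝ) (x : TT) : ℝ := (hC t x).re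

lemma summable_term {t : ℝ} (ht : 0 < t) (x : TT) :
    Summable (fun n : ℤ => (gc t n : ℂ) * fourier n x) := by
  apply Summable.of_norm
  refine (summable_gc ht).congr (fun n => ?_)
  rw [norm_mul, norm_fourier, mul_one, Complex.norm_real, Real.norm_of_nonneg (gc_pos t n).le]

lemma conj_hC (t : ℝ) (x : TT) : (starRingEnd ℂ) (hC t x) = hC t x := by
  unfold hC
  rw [conj_tsum]
  rw [← Equiv.tsum_eq (Equiv.neg ℤ)]
  apply tsum_congr
  intro n
  rw [map_mul, Complex.conj_ofReal, Equiv.neg_apply, gc_neg, fourier_neg, Complex.conj_conj]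

lemma h_coe (t : ℝ) (x : TT) : (h t x : ℂ) = hC t x := by
  unfold h
  exact Complex.conj_eq_iff_re.mp (conj_hC t x)

lemma continuous_hC {t : ℝ} (ht : 0 < t) : Continuous (hC t) := by
  unfold hC
  apply continuous_tsum (u := gc t)
  · intro n; fun_prop
  · exact summable_gc ht
  · intro n x
    rw [norm_mul, norm_fourier, mul_one, Complex.norm_real, Real.norm_of_nonneg (gc_pos t n).le]

lemma continuous_h {t : ℝ} (ht : 0 < t) : Continuous (h t) :=
  Complex.continuous_re.comp (continuous_hC ht)

lemma fourier_neg_arg (n : ℤ) (x : TT) : (fourier n (-x) : ℂ) = fourier (-n) x := by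
  rw [fourier_apply, fourier_apply]; simp

lemma hC_neg (t : ℝ) (x : TT) : hC t (-x) = hC t x := by
  unfold hC
  rw [← Equiv.tsum_eq (Equiv.neg ℤ)]
  apply tsum_congr
  intro n
  rw [Equiv.neg_apply, gc_neg, fourier_neg_arg, neg_neg]

lemma h_neg (t : ℝ) (x : TT) : h t (-x) = h t x := by
  unfold h; rw [hC_neg]

lemma integral_fourier (n : ℤ) : ∫ x : TT, (fourier n x : ℂ) ∂haarAddCircle = if n = 0 then 1 else 0 := by
  have h1 : fourierCoeff (T := 2 * Real.pi) (fun x => (fourier 0 x : ℂ)) (-n) =
      ∫ x : TT, (fourier n x : ℂ) ∂haarAddCircle := by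
    unfold fourierCoeff
    simp
  rw [← h1]
  have h2 := fourierCoeff_fourier (T := 2 * Real.pi) 0
  have h3 := congrFun h2 (-n)
  rw [h3]
  by_cases hn : n = 0
  · subst hn; simp
  · rw [if_neg hn, Pi.single_eq_of_ne]; simpa using hn

lemma integrable_fourier (n : ℤ) : Integrable (fun x : TT => (fourier n x : ℂ)) haarAddCircle :=
  (ContinuousMap.continuous (fourier n)).integrable_of_hasCompactSupport
    (HasCompactSupport.of_compactSpace _)

lemma fourier_add_idx (m n : ℤ) (x : TT) : (fourier (m + n) x : ℂ) = fourier m x * fourier n x :=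
  fourier_add

lemma fourier_add_arg (n : ℤ) (x y : TT) : (fourier n (x + y) : ℂ) = fourier n x * fourier n y := by
  rw [fourier_apply, fourier_apply, fourier_apply, smul_add, toCircle_add, Circle.coe_mul]

/-- Fourier coefficients of the heat kernel -/
lemma integral_fourier_hC {t : ℝ} (ht : 0 < t) (n : ℤ) :
    ∫ x : TT, (fourier (-n) x : ℂ) * hC t x ∂haarAddCircle = (gc t n : ℂ) := by
  have h1 : ∀ x : TT, (fourier (-n) x : ℂ) * hC t x =
      ∑' m : ℤ, (gc t m : ℂ) * fourier (m - n) x := by
    intro x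
    unfold hC
    rw [← tsum_mul_left]
    apply tsum_congr
    intro m
    rw [sub_eq_add_neg, fourier_add_idx]; ring
  simp_rw [h1]
  rw [← integral_tsum_of_summable_integral_norm]
  · have h2 : ∀ m : ℤ, ∫ x : TT, (gc t m : ℂ) * (fourier (m - n) x : ℂ) ∂haarAddCircle =
        if m = n then (gc t n : ℂ) else 0 := by
      intro m
      rw [integral_const_mul, integral_fourier]
      by_cases hmn : m = n
      · subst hmn; simp
      · rw [if_neg (by omega), if_neg hmn, mul_zero]
    simp_rw [h2]
    rw [tsum_ite_eq]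
  · intro m
    exact (integrable_fourier _).const_mul _
  · refine (summable_gc ht).congr (fun m => ?_)
    have : ∀ x : TT, ‖(gc t m : ℂ) * (fourier (m - n) x : ℂ)‖ = gc t m := by
      intro x
      rw [norm_mul, norm_fourier, mul_one, Complex.norm_real, Real.norm_of_nonneg (gc_pos t m).le]
    simp_rw [this]
    simp

lemma continuous_integrable {X E : Type*} [TopologicalSpace X] [MeasurableSpace X] [BorelSpace X]
    [CompactSpace X] [NormedAddCommGroup E] [SecondCountableTopologyEither X E]
    (μ : Measure X) [IsFiniteMeasure μ] {f : X → E}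
    (hf : Continuous f) : Integrable f μ :=
  hf.integrable_of_hasCompactSupport (HasCompactSupport.of_compactSpace _)

/-- semigroup property -/
lemma hC_semigroup {s t : ℝ} (hs : 0 < s) (ht : 0 < t) (x : TT) :
    ∫ z : TT, hC s (x - z) * hC t z ∂haarAddCircle = hC (s + t) x := by
  have h1 : ∀ z : TT, hC s (x - z) * hC t z =
      ∑' n : ℤ, (gc t n : ℂ) * (fourier n z * hC s (x - z)) := by
    intro z
    conv_lhs => rw [hC.eq_1 t]
    rw [← tsum_mul_left]
    apply tsum_congr
    intro n; ring
  simp_rw [h1]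
  have hcont : ∀ n : ℤ, Continuous (fun z : TT => (fourier n z : ℂ) * hC s (x - z)) := by
    intro n
    exact (ContinuousMap.continuous (fourier n)).mul ((continuous_hC hs).comp (by fun_prop))
  rw [← integral_tsum_of_summable_integral_norm]
  · unfold hC
    apply tsum_congr
    intro n
    rw [integral_const_mul]
    have h2 : ∫ z : TT, (fourier n z : ℂ) * hC s (x - z) ∂haarAddCircle =
        ∫ z : TT, (fourier n (x - z) : ℂ) * hC s z ∂haarAddCircle := by
      rw [← integral_sub_left_eq_self _ haarAddCircle x]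
      simp
    unfold hC at h2
    rw [h2]
    have h3 : ∀ z : TT, (fourier n (x - z) : ℂ) * (∑' n : ℤ, (gc s n : ℂ) * fourier n z) =
        fourier n x * ((fourier (-n) z : ℂ) * hC s z) := by
      intro z
      rw [sub_eq_add_neg, fourier_add_arg, fourier_neg_arg]
      unfold hC; ring
    simp_rw [h3]
    rw [integral_const_mul, integral_fourier_hC hs, gc_add]
    push_cast; ring
  · intro n
    exact (continuous_integrable _ (hcont n)).const_mul _
  · have hbd : ∃ C, ∀ y : TT, ‖hC s y‖ ≤ C := by
      obtain ⟨C, hC'⟩ := (isCompact_range (continuous_hC hs)).isBounded.exists_norm_le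
      exact ⟨C, fun y => hC' _ ⟨y, rfl⟩⟩
    obtain ⟨C, hCb⟩ := hbd
    refine Summable.of_nonneg_of_le (fun n => integral_nonneg (fun _ => norm_nonneg _)) (fun n => ?_)
      ((summable_gc ht).mul_right C)
    calc ∫ z : TT, ‖(gc t n : ℂ) * (fourier n z * hC s (x - z))‖ ∂haarAddCircle
        ≤ ∫ z : TT, gc t n * C ∂haarAddCircle := by
          apply integral_mono
          · exact ((continuous_integrable _ (hcont n)).const_mul _).norm
          · exact integrable_const _
          · intro z
            simp only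
            rw [norm_mul, norm_mul, norm_fourier, one_mul, Complex.norm_real,
              Real.norm_of_nonneg (gc_pos t n).le]
            exact mul_le_mul_of_nonneg_left (hCb _) (gc_pos t n).le
      _ = gc t n * C := by simp

lemma h_semigroup {s t : ℝ} (hs : 0 < s) (ht : 0 < t) (x : TT) :
    ∫ z : TT, h s (x - z) * h t z ∂haarAddCircle = h (s + t) x := by
  have h1 := hC_semigroup hs ht x
  have h2 : ∀ z : TT, hC s (x - z) * hC t z = ((h s (x - z) * h t z : ℝ) : ℂ) := by
    intro z; push_cast; rw [h_coe, h_coe]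
  simp_rw [h2] at h1
  rw [integral_complex_ofReal, ← h_coe] at h1
  exact_mod_cast h1

lemma integral_h {t : ℝ} (ht : 0 < t) : ∫ x : TT, h t x ∂haarAddCircle = 1 := by
  have h1 := integral_fourier_hC ht 0
  have h2 : ∀ x : TT, (fourier (-0) x : ℂ) * hC t x = ((h t x : ℝ) : ℂ) := by
    intro x; rw [h_coe]; simp
  simp_rw [h2] at h1
  rw [integral_complex_ofReal, gc_zero] at h1
  exact_mod_cast h1

end Pool.Agent.Lib.MP_84bec1_pr
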