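import Mathlib
import Pool.Agent.Lib.MP_84bec1_pr.Heat

set_option autoImplicit false

open MeasureTheory AddCircle Complex

namespace Pool.Agent.Lib.MP_84bec1_pr

/-- the antipode -/
noncomputable def pt : TT := ((Real.pi : ℝ) : TT)

lemma fourier_pt (n : ℤ) : (fourier n pt : ℂ) = (-1) ^ n := by
  unfold pt
  rw [fourier_coe_apply]
  have h1 : (2 * (Real.pi : ℂ) * I * n * (Real.pi : ℂ) / ((2 * Real.pi : ℝ) : ℂ)) = n * (Real.pi * I) := by
    have : (Real.pi : ℂ) ≠ 0 := by exact_mod_cast Real.pi_ne_zero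
    push_cast
    field_simp
  rw [h1, Complex.exp_int_mul, Complex.exp_pi_mul_I]

lemma pt_add_pt : pt + pt = 0 := by
  unfold pt
  rw [← AddCircle.coe_add, ← two_mul]
  exact AddCircle.coe_period _

lemma gc_dup (t : ℝ) (m n : ℤ) : gc t m * gc t n = gc (t / 2) (m + n) * gc (t / 2) (m - n) := by
  unfold gc
  rw [← Real.exp_add, ← Real.exp_add]
  congr 1
  push_cast
  ring

lemma neg_one_zpow_even (m n : ℤ) : ((-1 : ℂ)) ^ ((m + n) + (m - n)) = 1 := by
  have : (m + n) + (m - n) = 2 * m := by ring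
  rw [this, zpow_mul]; simp

lemma hC_dup {t : ℝ} (ht : 0 < t) (x y : TT) :
    hC t (x + y) * hC t (x - y) =
      (1 / 2 : ℂ) * (hC (t / 2) x * hC (t / 2) y + hC (t / 2) (x + pt) * hC (t / 2) (y + pt)) := by
  have ht2 : 0 < t / 2 := by linarith
  have hn : ∀ (s : ℝ) (_ : 0 < s) (z : TT), Summable (fun n : ℤ => ‖(gc s n : ℂ) * fourier n z‖) :=
    fun s hs z => (summable_term hs z).norm
  set f : ℤ × ℤ → ℂ := fun p => ((gc (t / 2) p.1 : ℂ) * fourier p.1 x) *
    ((gc (t / 2) p.2 : ℂ) * fourier p.2 y) with hf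
  set g : ℤ × ℤ → ℂ := fun p => f p * ((1 + (-1) ^ (p.1 + p.2)) / 2) with hg
  have hprod : ∀ x y : TT, hC (t / 2) x * hC (t / 2) y = ∑' p : ℤ × ℤ,
      ((gc (t / 2) p.1 : ℂ) * fourier p.1 x) * ((gc (t / 2) p.2 : ℂ) * fourier p.2 y) := by
    intro x y
    unfold hC
    exact tsum_mul_tsum_of_summable_norm (f := fun n : ℤ => (gc (t / 2) n : ℂ) * fourier n x)
      (g := fun n : ℤ => (gc (t / 2) n : ℂ) * fourier n y) (hn _ ht2 x) (hn _ ht2 y)
  have hsum : ∀ x y : TT, Summable (fun p : ℤ × ℤ =>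
      ((gc (t / 2) p.1 : ℂ) * fourier p.1 x) * ((gc (t / 2) p.2 : ℂ) * fourier p.2 y)) := by
    intro x y
    exact summable_mul_of_summable_norm (f := fun n : ℤ => (gc (t / 2) n : ℂ) * fourier n x)
      (g := fun n : ℤ => (gc (t / 2) n : ℂ) * fourier n y) (hn _ ht2 x) (hn _ ht2 y)
  have e1 : hC t (x + y) * hC t (x - y) = ∑' p : ℤ × ℤ, g (p.1 + p.2, p.1 - p.2) := by
    have : hC t (x + y) * hC t (x - y) = ∑' p : ℤ × ℤ,
      ((gc t p.1 : ℂ) * fourier p.1 (x + y)) * ((gc t p.2 : ℂ) * fourier p.2 (x - y)) := by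
      unfold hC
      exact tsum_mul_tsum_of_summable_norm (f := fun n : ℤ => (gc t n : ℂ) * fourier n (x + y))
        (g := fun n : ℤ => (gc t n : ℂ) * fourier n (x - y)) (hn _ ht _) (hn _ ht _)
    rw [this]
    apply tsum_congr
    rintro ⟨m, n⟩
    simp only [hg, hf]
    rw [neg_one_zpow_even]
    have h1 : ((gc t m : ℂ)) * (gc t n : ℂ) = (gc (t / 2) (m + n) : ℂ) * (gc (t / 2) (m - n) : ℂ) := by
      exact_mod_cast gc_dup t m n
    rw [fourier_add_arg, sub_eq_add_neg x y, fourier_add_arg, fourier_neg_arg,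
      fourier_add_idx m n x, sub_eq_add_neg m n, fourier_add_idx m (-n) y]
    rw [← sub_eq_add_neg]
    linear_combination ((fourier m x : ℂ) * fourier m y * (fourier n x * fourier (-n) y)) * h1
  have e2 : ∑' p : ℤ × ℤ, g (p.1 + p.2, p.1 - p.2) = ∑' p : ℤ × ℤ, g p := by
    have hinj : Function.Injective (fun p : ℤ × ℤ => (p.1 + p.2, p.1 - p.2)) := by
      rintro ⟨a, b⟩ ⟨c, d⟩ hh
      simp only [Prod.mk.injEq] at hh
      ext <;> simp <;> omega
    refine hinj.tsum_eq (f := g) ?_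
    intro p hp
    rw [Function.mem_support] at hp
    have hpar : Even (p.1 + p.2) := by
      by_contra hodd
      rw [Int.not_even_iff_odd] at hodd
      apply hp
      simp only [hg]
      rw [hodd.neg_one_zpow]
      simp
    obtain ⟨k, hk⟩ := hpar
    refine ⟨(k, p.1 - k), ?_⟩
    ext <;> simp <;> omega
  have e3 : ∑' p : ℤ × ℤ, g p = (1 / 2 : ℂ) * (hC (t / 2) x * hC (t / 2) y +
      hC (t / 2) (x + pt) * hC (t / 2) (y + pt)) := by
    rw [hprod x y, hprod (x + pt) (y + pt), ← (hsum x y).tsum_add (hsum _ _), ← tsum_mul_left]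
    apply tsum_congr
    rintro ⟨m, n⟩
    simp only [hg, hf]
    rw [fourier_add_arg, fourier_add_arg, fourier_pt, fourier_pt, zpow_add₀ (by norm_num)]
    ring
  rw [e1, e2, e3]

lemma h_dup {t : ℝ} (ht : 0 < t) (x y : TT) :
    h t (x + y) * h t (x - y) =
      (1 / 2) * (h (t / 2) x * h (t / 2) y + h (t / 2) (x + pt) * h (t / 2) (y + pt)) := by
  have := hC_dup ht x y
  simp only [← h_coe] at this
  have h2 : ((h t (x + y) * h t (x - y) : ℝ) : ℂ) = (((1 / 2) * (h (t / 2) x * h (t / 2) y +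
      h (t / 2) (x + pt) * h (t / 2) (y + pt)) : ℝ) : ℂ) := by
    push_cast
    exact this
  exact Complex.ofReal_injective h2

/-- the Villain weight -/
noncomputable def vwL (β θ : ℝ) : ℝ := ∑' m : ℤ, Real.exp (-(β / 2) * (θ + 2 * Real.pi * m) ^ 2)

lemma summable_vw {β : ℝ} (hβ : 0 < β) (θ : ℝ) :
    Summable (fun m : ℤ => Real.exp (-(β / 2) * (θ + 2 * Real.pi * m) ^ 2)) := by
  have hpi := Real.pi_pos
  have h1 : Summable (fun m : ℤ => Real.exp ((β / 2) * θ ^ 2) * gc (β * Real.pi ^ 2) m) :=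
    (summable_gc (by positivity)).mul_left _
  refine Summable.of_nonneg_of_le (fun _ => (Real.exp_pos _).le) (fun m => ?_) h1
  unfold gc
  rw [← Real.exp_add]
  apply Real.exp_le_exp.mpr
  have h2 : 0 ≤ (β / 2) * (2 * θ + 2 * Real.pi * m) ^ 2 / 2 := by positivity
  nlinarith [h2]

lemma vw_pos {β : ℝ} (hβ : 0 < β) (θ : ℝ) : 0 < vwL β θ :=
  (summable_vw hβ θ).tsum_pos (fun _ => (Real.exp_pos _).le) 0 (Real.exp_pos _)

/-- Poisson summation -/
lemma h_eq_vw {β : ℝ} (hβ : 0 < β) (θ : ℝ) :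
    h (1 / (2 * β)) (θ : TT) = Real.sqrt (2 * Real.pi * β) * vwL β θ := by
  have hpi := Real.pi_pos
  have hpc : (Real.pi : ℂ) ≠ 0 := by exact_mod_cast hpi.ne'
  have hbc : (β : ℂ) ≠ 0 := by exact_mod_cast hβ.ne'
  set a : ℝ := 1 / (2 * Real.pi * β) with ha
  have hapos : 0 < a := by positivity
  have key := Complex.tsum_exp_neg_quadratic (a := (a : ℂ)) (by simpa using hapos)
    (I * θ / (2 * Real.pi))
  have e1 : hC (1 / (2 * β)) (θ : TT) =
      ∑' n : ℤ, cexp (-Real.pi * a * n ^ 2 + 2 * Real.pi * (I * θ / (2 * Real.pi)) * n) := by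
    unfold hC
    apply tsum_congr
    intro n
    rw [fourier_coe_apply, gc, Complex.ofReal_exp, ← Complex.exp_add]
    congr 1
    rw [ha]
    push_cast
    field_simp
  have e2 : ∑' n : ℤ, cexp (-Real.pi / a * (n + I * (I * θ / (2 * Real.pi))) ^ 2) = (vwL β θ : ℂ) := by
    unfold vwL
    rw [Complex.ofReal_tsum, ← Equiv.tsum_eq (Equiv.neg ℤ)]
    apply tsum_congr
    intro n
    rw [Complex.ofReal_exp, Equiv.neg_apply]
    congr 1
    rw [ha]
    have hI : I * (I * θ / (2 * Real.pi)) = -(θ / (2 * Real.pi) : ℂ) := by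
      have := Complex.I_mul_I
      linear_combination (θ / (2 * Real.pi) : ℂ) * this
    rw [hI]
    push_cast
    field_simp
    ring
  have e3 : (1 : ℂ) / (a : ℂ) ^ (1 / 2 : ℂ) = (Real.sqrt (2 * Real.pi * β) : ℂ) := by
    have h1 : (a : ℂ) ^ (1 / 2 : ℂ) = ((a ^ (1 / 2 : ℝ) : ℝ) : ℂ) := by
      rw [Complex.ofReal_cpow hapos.le]; push_cast; rfl
    rw [h1, ← Real.sqrt_eq_rpow, ha, one_div (2 * Real.pi * β), Real.sqrt_inv]
    push_cast
    simp
  rw [← e1, e2, e3, ← h_coe] at key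
  exact_mod_cast key

lemma h_pos {t : ℝ} (ht : 0 < t) (x : TT) : 0 < h t x := by
  obtain ⟨θ, rfl⟩ := QuotientAddGroup.mk_surjective x
  have hβ : 0 < 1 / (2 * t) := by positivity
  have h1 := h_eq_vw hβ θ
  have h2 : 1 / (2 * (1 / (2 * t))) = t := by field_simp
  rw [h2] at h1
  have h3 : h t (θ : TT) = _ := h1
  change 0 < h t (θ : TT)
  rw [h3]
  have hpi := Real.pi_pos
  have := vw_pos hβ θ
  positivity

end Pool.Agent.Lib.MP_84bec1_pr
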