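import Mathlib
import Pool.Agent.Lib.MP_84bec1_pr.Heat2

set_option autoImplicit false

open MeasureTheory AddCircle

namespace Pool.Agent.Lib.MP_84bec1_pr

/-- Haar probability on the circle -/
noncomputable abbrev hm : Measure TT := haarAddCircle

lemma h_add_neg_comm (t : ℝ) (x y : TT) : h t (x - y) = h t (y - x) := by
  rw [← h_neg t (y - x)]; congr 1; abel

/-- doubling is measure preserving on the circle -/
lemma integral_double {f : TT → ℝ} (hf : Continuous f) : ∫ x : TT, f (x + x) ∂hm = ∫ x : TT, f x ∂hm := by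
  have hsurj : Function.Surjective (nsmulAddMonoidHom 2 : TT →+ TT) := by
    intro y
    obtain ⟨θ, rfl⟩ := QuotientAddGroup.mk_surjective y
    refine ⟨((θ / 2 : ℝ) : TT), ?_⟩
    change (2 : ℕ) • ((θ / 2 : ℝ) : TT) = (θ : TT)
    rw [two_nsmul, ← AddCircle.coe_add]
    congr 1; ring
  have hcont : Continuous (nsmulAddMonoidHom 2 : TT →+ TT) := by
    change Continuous (fun x : TT => (2 : ℕ) • x)
    fun_prop
  have hmp : MeasurePreserving (nsmulAddMonoidHom 2 : TT →+ TT) hm hm :=
    AddMonoidHom.measurePreserving hcont hsurj rfl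
  have e : ∫ x : TT, f x ∂hm = ∫ x : TT, f ((nsmulAddMonoidHom 2 : TT →+ TT) x) ∂hm := by
    conv_lhs => rw [← hmp.map_eq]
    rw [integral_map hmp.measurable.aemeasurable hf.aestronglyMeasurable]
  rw [e]
  congr 1
  ext x
  change f (x + x) = f ((2 : ℕ) • x)
  rw [two_nsmul]

/-- the odd part of the kernel -/
noncomputable def gk (s : ℝ) (η x : TT) : ℝ := h s (x - η) - h s (x + η)

lemma cint {f : TT → ℝ} (hf : Continuous f) : Integrable f hm := continuous_integrable _ hf

lemma conv1 {t : ℝ} (ht : 0 < t) (x y : TT) :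
    ∫ η : TT, h (t / 2) (x - η) * h (t / 2) (y - η) ∂hm = h t (x - y) := by
  have ht2 : 0 < t / 2 := by linarith
  have h1 := h_semigroup ht2 ht2 (x - y)
  rw [show t / 2 + t / 2 = t by ring] at h1
  rw [← h1, ← integral_sub_right_eq_self (fun z => h (t / 2) (x - y - z) * h (t / 2) z) y]
  congr 1
  ext z
  rw [show x - y - (z - y) = x - z by abel, h_add_neg_comm _ z y]

lemma conv2 {t : ℝ} (ht : 0 < t) (x y : TT) :
    ∫ η : TT, h (t / 2) (x - η) * h (t / 2) (y + η) ∂hm = h t (x + y) := by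
  have := conv1 ht x (-y)
  rw [sub_neg_eq_add] at this
  rw [← this]
  congr 1
  ext z
  rw [← h_neg _ (y + z)]
  congr 2; abel

/-- `∫ g g = 2 (h (x-y) - h (x+y))` -/
lemma K1 {t : ℝ} (ht : 0 < t) (x y : TT) :
    ∫ η : TT, gk (t / 2) η x * gk (t / 2) η y ∂hm = 2 * (h t (x - y) - h t (x + y)) := by
  have ht2 : 0 < t / 2 := by linarith
  have hc := continuous_h ht2
  have c1 : Continuous (fun η : TT => h (t / 2) (x - η)) := hc.comp (by fun_prop)
  have c2 : Continuous (fun η : TT => h (t / 2) (x + η)) := hc.comp (by fun_prop)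
  have c3 : Continuous (fun η : TT => h (t / 2) (y - η)) := hc.comp (by fun_prop)
  have c4 : Continuous (fun η : TT => h (t / 2) (y + η)) := hc.comp (by fun_prop)
  have e : ∀ η : TT, gk (t / 2) η x * gk (t / 2) η y =
      (h (t / 2) (x - η) * h (t / 2) (y - η) + h (t / 2) (x + η) * h (t / 2) (y + η)) -
      (h (t / 2) (x - η) * h (t / 2) (y + η) + h (t / 2) (y - η) * h (t / 2) (x + η)) := by
    intro η; unfold gk; ring
  simp_rw [e]
  rw [integral_sub (cint ((c1.fun_mul c3).fun_add (c2.fun_mul c4))) (cint ((c1.fun_mul c4).fun_add (c3.fun_mul c2))),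
    integral_add (cint (c1.fun_mul c3)) (cint (c2.fun_mul c4)),
    integral_add (cint (c1.fun_mul c4)) (cint (c3.fun_mul c2)), conv1 ht, conv2 ht, conv2 ht]
  have e2 : ∫ η : TT, h (t / 2) (x + η) * h (t / 2) (y + η) ∂hm = h t (x - y) := by
    rw [← conv1 ht x y, ← integral_neg_eq_self (fun η => h (t / 2) (x - η) * h (t / 2) (y - η)) hm]
    simp only [sub_neg_eq_add]
  rw [e2, add_comm y x]
  ring

/-- the integral representation of the mixed kernel -/
lemma I1 {t ρ : ℝ} (ht : 0 < t) (hρ : 0 < ρ) (x y : TT) :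
    ∫ η : TT, h ρ (η + η) * (h (t / 2) (x - η) * h (t / 2) (y - η)) ∂hm =
      h t (x - y) * h (t + ρ) (x + y) := by
  have ht2 : 0 < t / 2 := by linarith
  have hc := continuous_h ht2
  have c0 : Continuous (fun η : TT => h ρ (η + η)) := (continuous_h hρ).comp (by fun_prop)
  have c1 : Continuous (fun η : TT => h (t / 2) (x - η)) := hc.comp (by fun_prop)
  have c3 : Continuous (fun η : TT => h (t / 2) (y - η)) := hc.comp (by fun_prop)
  have c1' : Continuous (fun η : TT => h (t / 2) (x - η + pt)) := hc.comp (by fun_prop)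
  have c3' : Continuous (fun η : TT => h (t / 2) (y - η + pt)) := hc.comp (by fun_prop)
  have h1 := h_semigroup ht hρ (x + y)
  have hcf : Continuous (fun z : TT => h t (x + y - z) * h ρ z) :=
    ((continuous_h ht).comp (by fun_prop)).fun_mul (continuous_h hρ)
  rw [← integral_double hcf] at h1
  rw [← h1, ← integral_const_mul]
  have e : ∀ η : TT, h t (x - y) * (h t (x + y - (η + η)) * h ρ (η + η)) =
      (1 / 2) * (h ρ (η + η) * (h (t / 2) (x - η) * h (t / 2) (y - η))) +
      (1 / 2) * (h ρ (η + η) * (h (t / 2) (x - η + pt) * h (t / 2) (y - η + pt))) := by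
    intro η
    have hd := h_dup ht (x - η) (y - η)
    rw [show x - η + (y - η) = x + y - (η + η) by abel, show x - η - (y - η) = x - y by abel] at hd
    linear_combination (h ρ (η + η)) * hd
  simp_rw [e]
  rw [integral_add (cint (continuous_const.fun_mul (c0.fun_mul (c1.fun_mul c3))))
    (cint (continuous_const.fun_mul (c0.fun_mul (c1'.fun_mul c3')))), integral_const_mul, integral_const_mul]
  have e2 : ∫ η : TT, h ρ (η + η) * (h (t / 2) (x - η + pt) * h (t / 2) (y - η + pt)) ∂hm =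
      ∫ η : TT, h ρ (η + η) * (h (t / 2) (x - η) * h (t / 2) (y - η)) ∂hm := by
    rw [← integral_add_right_eq_self (fun η => h ρ (η + η) * (h (t / 2) (x - η + pt) * h (t / 2) (y - η + pt))) pt]
    congr 1
    ext η
    rw [show η + pt + (η + pt) = η + η + (pt + pt) by abel, pt_add_pt, add_zero,
      show x - (η + pt) + pt = x - η by abel, show y - (η + pt) + pt = y - η by abel]
  rw [e2]
  ring

lemma I1' {t ρ : ℝ} (ht : 0 < t) (hρ : 0 < ρ) (x y : TT) :
    ∫ η : TT, h ρ (η + η) * (h (t / 2) (x - η) * h (t / 2) (y + η)) ∂hm =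
      h t (x + y) * h (t + ρ) (x - y) := by
  have := I1 ht hρ x (-y)
  rw [sub_neg_eq_add, ← sub_eq_add_neg] at this
  rw [← this]
  congr 1
  ext z
  rw [← h_neg _ (y + z)]
  congr 3; abel

lemma K2 {t ρ : ℝ} (ht : 0 < t) (hρ : 0 < ρ) (x y : TT) :
    ∫ η : TT, h ρ (η + η) * (gk (t / 2) η x * gk (t / 2) η y) ∂hm =
      2 * (h t (x - y) * h (t + ρ) (x + y) - h t (x + y) * h (t + ρ) (x - y)) := by
  have ht2 : 0 < t / 2 := by linarith
  have hc := continuous_h ht2
  have c0 : Continuous (fun η : TT => h ρ (η + η)) := (continuous_h hρ).comp (by fun_prop)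
  have c1 : Continuous (fun η : TT => h (t / 2) (x - η)) := hc.comp (by fun_prop)
  have c2 : Continuous (fun η : TT => h (t / 2) (x + η)) := hc.comp (by fun_prop)
  have c3 : Continuous (fun η : TT => h (t / 2) (y - η)) := hc.comp (by fun_prop)
  have c4 : Continuous (fun η : TT => h (t / 2) (y + η)) := hc.comp (by fun_prop)
  have e : ∀ η : TT, h ρ (η + η) * (gk (t / 2) η x * gk (t / 2) η y) =
      (h ρ (η + η) * (h (t / 2) (x - η) * h (t / 2) (y - η)) +
        h ρ (η + η) * (h (t / 2) (x + η) * h (t / 2) (y + η))) -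
      (h ρ (η + η) * (h (t / 2) (x - η) * h (t / 2) (y + η)) +
        h ρ (η + η) * (h (t / 2) (y - η) * h (t / 2) (x + η))) := by
    intro η; unfold gk; ring
  simp_rw [e]
  rw [integral_sub (cint ((c0.fun_mul (c1.fun_mul c3)).fun_add (c0.fun_mul (c2.fun_mul c4))))
      (cint ((c0.fun_mul (c1.fun_mul c4)).fun_add (c0.fun_mul (c3.fun_mul c2)))),
    integral_add (cint (c0.fun_mul (c1.fun_mul c3))) (cint (c0.fun_mul (c2.fun_mul c4))),
    integral_add (cint (c0.fun_mul (c1.fun_mul c4))) (cint (c0.fun_mul (c3.fun_mul c2))), I1 ht hρ, I1' ht hρ, I1' ht hρ]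
  have e2 : ∫ η : TT, h ρ (η + η) * (h (t / 2) (x + η) * h (t / 2) (y + η)) ∂hm =
      h t (x - y) * h (t + ρ) (x + y) := by
    rw [← I1 ht hρ x y, ← integral_neg_eq_self (fun η => h ρ (η + η) * (h (t / 2) (x - η) * h (t / 2) (y - η))) hm]
    congr 1
    ext η
    rw [← h_neg ρ (η + η), neg_add, sub_neg_eq_add, sub_neg_eq_add]
  rw [e2, add_comm y x, ← h_neg _ (y - x), neg_sub]
  ring

/-- the odd kernels of larger time are averages of those of smaller time -/
lemma K3 {t ρ : ℝ} (ht : 0 < t) (hρ : 0 < ρ) (η x : TT) :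
    gk ((t + ρ) / 2) η x = ∫ ζ : TT, h (ρ / 2) (η - ζ) * gk (t / 2) ζ x ∂hm := by
  have ht2 : 0 < t / 2 := by linarith
  have hρ2 : 0 < ρ / 2 := by linarith
  have hc := continuous_h ht2
  have hc' := continuous_h hρ2
  have c0 : Continuous (fun ζ : TT => h (ρ / 2) (η - ζ)) := hc'.comp (by fun_prop)
  have c1 : Continuous (fun ζ : TT => h (t / 2) (x - ζ)) := hc.comp (by fun_prop)
  have c2 : Continuous (fun ζ : TT => h (t / 2) (x + ζ)) := hc.comp (by fun_prop)
  have e : ∀ ζ : TT, h (ρ / 2) (η - ζ) * gk (t / 2) ζ x =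
      h (ρ / 2) (η - ζ) * h (t / 2) (x - ζ) - h (ρ / 2) (η - ζ) * h (t / 2) (x + ζ) := by
    intro ζ; unfold gk; ring
  simp_rw [e]
  rw [integral_sub (cint (c0.fun_mul c1)) (cint (c0.fun_mul c2))]
  unfold gk
  congr 1
  · have h1 := h_semigroup ht2 hρ2 (x - η)
    rw [show t / 2 + ρ / 2 = (t + ρ) / 2 by ring] at h1
    rw [← h1, ← integral_sub_right_eq_self (fun z => h (t / 2) (x - η - z) * h (ρ / 2) z) η]
    congr 1
    ext z
    rw [show x - η - (z - η) = x - z by abel, h_add_neg_comm _ z η, mul_comm]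
  · have h1 := h_semigroup ht2 hρ2 (x + η)
    rw [show t / 2 + ρ / 2 = (t + ρ) / 2 by ring] at h1
    rw [← h1, ← integral_sub_left_eq_self (fun z => h (t / 2) (x + η - z) * h (ρ / 2) z) hm η]
    congr 1
    ext z
    rw [show x + η - (η - z) = x + z by abel, mul_comm]

end Pool.Agent.Lib.MP_84bec1_pr
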