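import Mathlib
import Pool.Agent.Lib.MP_84bec1_pr.Kernels

set_option autoImplicit false

open MeasureTheory AddCircle

namespace Pool.Agent.Lib.MP_84bec1_pr

/-- normalised Haar measure on spin configurations -/
noncomputable def mu (V : Type) [Fintype V] : Measure (V → TT) := Measure.pi (fun _ => haarAddCircle)

instance (V : Type) [Fintype V] : IsProbabilityMeasure (mu V) := by unfold mu; infer_instance
instance (V : Type) [Fintype V] : (mu V).IsAddHaarMeasure := by unfold mu; infer_instance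
instance (V : Type) [Fintype V] : BorelSpace ((V → TT) × (V → TT)) := Prod.borelSpace
instance (V : Type) [Fintype V] : ((mu V).prod (mu V)).IsAddHaarMeasure :=
  Measure.prod.instIsAddHaarMeasure _ _

section PD

variable {V : Type} [Fintype V]

lemma cintG {f : (V → TT) → ℝ} (hf : Continuous f) : Integrable f (mu V) := continuous_integrable _ hf

lemma cintGG {f : (V → TT) × (V → TT) → ℝ} (hf : Continuous f) :
    Integrable f ((mu V).prod (mu V)) := continuous_integrable _ hf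

lemma swapInt {X Y : Type*} [TopologicalSpace X] [TopologicalSpace Y] [MeasurableSpace X]
    [MeasurableSpace Y] [OpensMeasurableSpace X] [OpensMeasurableSpace Y] [CompactSpace X] [CompactSpace Y]
    {f : X → Y → ℝ} (hf : Continuous (Function.uncurry f)) (μ : Measure X) (ν : Measure Y)
    [IsFiniteMeasure μ] [IsFiniteMeasure ν] :
    ∫ x, ∫ y, f x y ∂ν ∂μ = ∫ y, ∫ x, f x y ∂μ ∂ν :=
  integral_integral_swap_of_hasCompactSupport hf (HasCompactSupport.of_compactSpace _)

lemma contInt {X Y : Type*} [TopologicalSpace X] [TopologicalSpace Y]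
    [MeasurableSpace Y] [OpensMeasurableSpace Y] [FirstCountableTopology X] [LocallyCompactSpace X]
    [SecondCountableTopologyEither Y ℝ] [CompactSpace Y]
    {f : X → Y → ℝ} (hf : Continuous (Function.uncurry f)) (ν : Measure Y)
    [IsFiniteMeasure ν] : Continuous (fun x => ∫ y, f x y ∂ν) := by
  have := continuous_parametric_integral_of_continuous (μ := ν) hf (isCompact_univ)
  simpa using this

/-- the coefficient of `F` against the odd kernel -/
noncomputable def AA (s : ℝ) (u v : V) (F : (V → TT) → ℝ) (η : TT) : ℝ :=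
  ∫ σ : V → TT, F σ * gk s η (σ u - σ v) ∂(mu V)

lemma cont_gk {s : ℝ} (hs : 0 < s) : Continuous (fun p : TT × TT => gk s p.1 p.2) := by
  unfold gk
  have hc := continuous_h hs
  exact (hc.comp (by fun_prop)).sub (hc.comp (by fun_prop))

lemma cont_AA {s : ℝ} (hs : 0 < s) (u v : V) {F : (V → TT) → ℝ} (hF : Continuous F) :
    Continuous (AA s u v F) := by
  unfold AA
  apply contInt
  have h1 : Continuous (fun p : TT × (V → TT) => gk s p.1 (p.2 u - p.2 v)) :=
    (cont_gk hs).comp (f := fun p : TT × (V → TT) => (p.1, p.2 u - p.2 v)) (by fun_prop)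
  exact (hF.comp continuous_snd).mul h1

/-- double integral against a mixture of the odd kernels -/
lemma pd_mix {s : ℝ} (hs : 0 < s) (u v : V) {F : (V → TT) → ℝ} (hF : Continuous F)
    {m : TT → ℝ} (hm' : Continuous m) :
    ∫ σ : V → TT, ∫ τ : V → TT, F σ * F τ *
      (∫ η : TT, m η * (gk s η (σ u - σ v) * gk s η (τ u - τ v)) ∂hm) ∂(mu V) ∂(mu V) =
    ∫ η : TT, m η * (AA s u v F η) ^ 2 ∂hm := by
  have hg1 : Continuous (fun p : TT × (V → TT) => gk s p.1 (p.2 u - p.2 v)) :=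
    (cont_gk hs).comp (f := fun p : TT × (V → TT) => (p.1, p.2 u - p.2 v)) (by fun_prop)
  have e1 : ∀ σ τ : V → TT, F σ * F τ *
      (∫ η : TT, m η * (gk s η (σ u - σ v) * gk s η (τ u - τ v)) ∂hm) =
      ∫ η : TT, (F σ * gk s η (σ u - σ v) * m η) * (F τ * gk s η (τ u - τ v)) ∂hm := by
    intro σ τ
    rw [← integral_const_mul]
    congr 1; ext η; ring
  simp_rw [e1]
  have e2 : ∀ σ : V → TT, ∫ τ : V → TT, ∫ η : TT,
      (F σ * gk s η (σ u - σ v) * m η) * (F τ * gk s η (τ u - τ v)) ∂hm ∂(mu V) =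
      ∫ η : TT, (F σ * gk s η (σ u - σ v) * m η) * AA s u v F η ∂hm := by
    intro σ
    rw [swapInt]
    · congr 1; ext η
      rw [integral_const_mul]; rfl
    · have h1 : Continuous (fun p : (V → TT) × TT => gk s p.2 (p.1 u - p.1 v)) :=
        (cont_gk hs).comp (f := fun p : (V → TT) × TT => (p.2, p.1 u - p.1 v)) (by fun_prop)
      have h2 : Continuous (fun p : (V → TT) × TT => gk s p.2 (σ u - σ v)) :=
        (cont_gk hs).comp (f := fun p : (V → TT) × TT => (p.2, σ u - σ v)) (by fun_prop)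
      change Continuous (fun p : (V → TT) × TT =>
        (F σ * gk s p.2 (σ u - σ v) * m p.2) * (F p.1 * gk s p.2 (p.1 u - p.1 v)))
      exact ((continuous_const.fun_mul h2).fun_mul (hm'.comp continuous_snd)).fun_mul
        ((hF.comp continuous_fst).fun_mul h1)
  simp_rw [e2]
  rw [swapInt]
  · congr 1; ext η
    have : ∀ σ : V → TT, F σ * gk s η (σ u - σ v) * m η * AA s u v F η =
        (F σ * gk s η (σ u - σ v)) * (m η * AA s u v F η) := by intro σ; ring
    simp_rw [this]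
    rw [integral_mul_const]
    change AA s u v F η * (m η * AA s u v F η) = _
    ring
  · have h1 : Continuous (fun p : (V → TT) × TT => gk s p.2 (p.1 u - p.1 v)) :=
        (cont_gk hs).comp (f := fun p : (V → TT) × TT => (p.2, p.1 u - p.1 v)) (by fun_prop)
    have h2 := cont_AA hs u v hF
    change Continuous (fun p : (V → TT) × TT =>
        (F p.1 * gk s p.2 (p.1 u - p.1 v) * m p.2) * AA s u v F p.2)
    exact (((hF.comp continuous_fst).fun_mul h1).fun_mul (hm'.comp continuous_snd)).fun_mul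
      (h2.comp continuous_snd)

lemma AA_avg {t ρ : ℝ} (ht : 0 < t) (hρ : 0 < ρ) (u v : V) {F : (V → TT) → ℝ} (hF : Continuous F)
    (η : TT) :
    AA ((t + ρ) / 2) u v F η = ∫ ζ : TT, h (ρ / 2) (η - ζ) * AA (t / 2) u v F ζ ∂hm := by
  have ht2 : 0 < t / 2 := by linarith
  have hρ2 : 0 < ρ / 2 := by linarith
  unfold AA
  have e1 : ∀ σ : V → TT, F σ * gk ((t + ρ) / 2) η (σ u - σ v) =
      ∫ ζ : TT, h (ρ / 2) (η - ζ) * (F σ * gk (t / 2) ζ (σ u - σ v)) ∂hm := by
    intro σ
    rw [K3 ht hρ, ← integral_const_mul]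
    congr 1; ext ζ; ring
  simp_rw [e1]
  rw [swapInt]
  · congr 1; ext ζ
    rw [integral_const_mul]
  · have h1 : Continuous (fun p : (V → TT) × TT => gk (t / 2) p.2 (p.1 u - p.1 v)) :=
        (cont_gk ht2).comp (f := fun p : (V → TT) × TT => (p.2, p.1 u - p.1 v)) (by fun_prop)
    change Continuous (fun p : (V → TT) × TT =>
        h (ρ / 2) (η - p.2) * (F p.1 * gk (t / 2) p.2 (p.1 u - p.1 v)))
    exact ((continuous_h hρ2).comp (by fun_prop)).fun_mul ((hF.comp continuous_fst).fun_mul h1)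

/-- Jensen: averaging decreases the L2 norm -/
lemma jensen {r : ℝ} (hr : 0 < r) {A : TT → ℝ} (hA : Continuous A) :
    ∫ η : TT, (∫ ζ : TT, h r (η - ζ) * A ζ ∂hm) ^ 2 ∂hm ≤ ∫ ζ : TT, (A ζ) ^ 2 ∂hm := by
  have hc := continuous_h hr
  have hone : ∀ η : TT, ∫ ζ : TT, h r (η - ζ) ∂hm = 1 := by
    intro η
    rw [integral_sub_left_eq_self (fun z => h r z) hm η]; exact integral_h hr
  have hone' : ∀ ζ : TT, ∫ η : TT, h r (η - ζ) ∂hm = 1 := by
    intro ζ
    rw [integral_sub_right_eq_self (fun z => h r z) ζ]; exact integral_h hr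
  have hpt : ∀ η : TT, (∫ ζ : TT, h r (η - ζ) * A ζ ∂hm) ^ 2 ≤
      ∫ ζ : TT, h r (η - ζ) * (A ζ) ^ 2 ∂hm := by
    intro η
    set B := ∫ ζ : TT, h r (η - ζ) * A ζ ∂hm with hB
    have c0 : Continuous (fun ζ : TT => h r (η - ζ)) := hc.comp (by fun_prop)
    have h1 : 0 ≤ ∫ ζ : TT, h r (η - ζ) * (A ζ - B) ^ 2 ∂hm :=
      integral_nonneg (fun ζ => mul_nonneg (h_pos hr _).le (sq_nonneg _))
    have h2 : ∀ ζ : TT, h r (η - ζ) * (A ζ - B) ^ 2 =
        (h r (η - ζ) * (A ζ) ^ 2 - (2 * B) * (h r (η - ζ) * A ζ)) + B ^ 2 * h r (η - ζ) := by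
      intro ζ; ring
    simp_rw [h2] at h1
    have hA2 : Continuous (fun ζ : TT => (A ζ) ^ 2) := hA.pow 2
    rw [integral_add (cint ((c0.fun_mul hA2).fun_sub (continuous_const.fun_mul (c0.fun_mul hA))))
      (cint (continuous_const.fun_mul c0)),
      integral_sub (cint (c0.fun_mul hA2)) (cint (continuous_const.fun_mul (c0.fun_mul hA))),
      integral_const_mul, integral_const_mul, hone, ← hB] at h1
    nlinarith
  have hcont2 : Continuous (Function.uncurry (fun η ζ : TT => h r (η - ζ) * (A ζ) ^ 2)) := by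
    change Continuous (fun p : TT × TT => h r (p.1 - p.2) * (A p.2) ^ 2)
    exact (hc.comp (by fun_prop)).fun_mul ((hA.comp continuous_snd).pow 2)
  have hcont1 : Continuous (Function.uncurry (fun η ζ : TT => h r (η - ζ) * A ζ)) := by
    change Continuous (fun p : TT × TT => h r (p.1 - p.2) * A p.2)
    exact (hc.comp (by fun_prop)).fun_mul (hA.comp continuous_snd)
  calc ∫ η : TT, (∫ ζ : TT, h r (η - ζ) * A ζ ∂hm) ^ 2 ∂hm
      ≤ ∫ η : TT, ∫ ζ : TT, h r (η - ζ) * (A ζ) ^ 2 ∂hm ∂hm := by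
        apply integral_mono
        · exact cint ((contInt hcont1 hm).pow 2)
        · exact cint (contInt hcont2 hm)
        · exact hpt
    _ = ∫ ζ : TT, ∫ η : TT, h r (η - ζ) * (A ζ) ^ 2 ∂hm ∂hm := swapInt hcont2 hm hm
    _ = ∫ ζ : TT, (A ζ) ^ 2 ∂hm := by
        congr 1; ext ζ
        rw [integral_mul_const, hone', one_mul]

end PD

/-- positivity of a kernel against all continuous functions on all finite tori -/
def PDk (D : TT → TT → ℝ) : Prop :=
  ∀ (V : Type) [Fintype V] (u v : V) (F : (V → TT) → ℝ), Continuous F →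
    0 ≤ ∫ σ : V → TT, ∫ τ : V → TT, F σ * F τ * D (σ u - σ v) (τ u - τ v) ∂(mu V) ∂(mu V)

/-- the comparison kernel of two weights -/
noncomputable def Dk (w₁ w₂ : TT → ℝ) (x y : TT) : ℝ := w₁ (x - y) * w₂ (x + y) - w₁ (x + y) * w₂ (x - y)

lemma pd_one {t : ℝ} (ht : 0 < t) : PDk (Dk (h t) (fun _ => 1)) := by
  intro V _ u v F hF
  have ht2 : 0 < t / 2 := by linarith
  have e : ∀ σ τ : V → TT, F σ * F τ * Dk (h t) (fun _ => 1) (σ u - σ v) (τ u - τ v) =
      F σ * F τ * (∫ η : TT, (1 / 2) * (gk (t / 2) η (σ u - σ v) * gk (t / 2) η (τ u - τ v)) ∂hm) := by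
    intro σ τ
    rw [integral_const_mul, K1 ht]
    unfold Dk; ring
  simp_rw [e]
  rw [pd_mix ht2 u v hF (m := fun _ => 1 / 2) continuous_const]
  exact integral_nonneg (fun η => by positivity)

lemma pd_eps {t ρ ε : ℝ} (ht : 0 < t) (hρ : 0 < ρ) (hε : 0 ≤ ε) (hmin : ∀ x : TT, ε ≤ h ρ x) :
    PDk (Dk (fun x => h t x + ε) (h (t + ρ))) := by
  intro V _ u v F hF
  have ht2 : 0 < t / 2 := by linarith
  have hρ2 : 0 < ρ / 2 := by linarith
  have htρ : 0 < t + ρ := by linarith
  have htρ2 : 0 < (t + ρ) / 2 := by linarith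
  have c0 : Continuous (fun η : TT => (1 / 2) * h ρ (η + η)) :=
    continuous_const.fun_mul ((continuous_h hρ).comp (by fun_prop))
  have e : ∀ σ τ : V → TT, F σ * F τ * Dk (fun x => h t x + ε) (h (t + ρ)) (σ u - σ v) (τ u - τ v) =
      F σ * F τ * (∫ η : TT, ((1 / 2) * h ρ (η + η)) *
        (gk (t / 2) η (σ u - σ v) * gk (t / 2) η (τ u - τ v)) ∂hm) -
      F σ * F τ * (∫ η : TT, (ε / 2) *
        (gk ((t + ρ) / 2) η (σ u - σ v) * gk ((t + ρ) / 2) η (τ u - τ v)) ∂hm) := by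
    intro σ τ
    rw [integral_const_mul, K1 htρ]
    have : ∀ η : TT, ((1 / 2) * h ρ (η + η)) *
        (gk (t / 2) η (σ u - σ v) * gk (t / 2) η (τ u - τ v)) = (1 / 2) * (h ρ (η + η) *
        (gk (t / 2) η (σ u - σ v) * gk (t / 2) η (τ u - τ v))) := by intro η; ring
    simp_rw [this]
    rw [integral_const_mul, K2 ht hρ]
    unfold Dk; ring
  simp_rw [e]
  -- continuity of the inner kernels
  have hker : ∀ (s : ℝ) (_ : 0 < s) (m : TT → ℝ) (_ : Continuous m),
      Continuous (fun p : (V → TT) × (V → TT) => F p.1 * F p.2 *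
        (∫ η : TT, m η * (gk s η (p.1 u - p.1 v) * gk s η (p.2 u - p.2 v)) ∂hm)) := by
    intro s hs m hm'
    refine ((hF.comp continuous_fst).fun_mul (hF.comp continuous_snd)).fun_mul ?_
    apply contInt (f := fun (p : (V → TT) × (V → TT)) (η : TT) =>
      m η * (gk s η (p.1 u - p.1 v) * gk s η (p.2 u - p.2 v)))
    have g1 : Continuous (fun q : ((V → TT) × (V → TT)) × TT => gk s q.2 (q.1.1 u - q.1.1 v)) :=
      (cont_gk hs).comp (f := fun q : ((V → TT) × (V → TT)) × TT => (q.2, q.1.1 u - q.1.1 v)) (by fun_prop)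
    have g2 : Continuous (fun q : ((V → TT) × (V → TT)) × TT => gk s q.2 (q.1.2 u - q.1.2 v)) :=
      (cont_gk hs).comp (f := fun q : ((V → TT) × (V → TT)) × TT => (q.2, q.1.2 u - q.1.2 v)) (by fun_prop)
    exact (hm'.comp continuous_snd).fun_mul (g1.fun_mul g2)
  have k1 := hker (t / 2) ht2 _ c0
  have k2 := hker ((t + ρ) / 2) htρ2 (fun _ => ε / 2) continuous_const
  have e2 : ∀ σ : V → TT, ∫ τ : V → TT, (F σ * F τ * (∫ η : TT, ((1 / 2) * h ρ (η + η)) *
        (gk (t / 2) η (σ u - σ v) * gk (t / 2) η (τ u - τ v)) ∂hm) -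
      F σ * F τ * (∫ η : TT, (ε / 2) *
        (gk ((t + ρ) / 2) η (σ u - σ v) * gk ((t + ρ) / 2) η (τ u - τ v)) ∂hm)) ∂(mu V) =
      (∫ τ : V → TT, F σ * F τ * (∫ η : TT, ((1 / 2) * h ρ (η + η)) *
        (gk (t / 2) η (σ u - σ v) * gk (t / 2) η (τ u - τ v)) ∂hm) ∂(mu V)) -
      ∫ τ : V → TT, F σ * F τ * (∫ η : TT, (ε / 2) *
        (gk ((t + ρ) / 2) η (σ u - σ v) * gk ((t + ρ) / 2) η (τ u - τ v)) ∂hm) ∂(mu V) := by
    intro σ
    apply integral_sub
    · exact cintG (k1.comp (f := fun τ : V → TT => (σ, τ)) (by fun_prop))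
    · exact cintG (k2.comp (f := fun τ : V → TT => (σ, τ)) (by fun_prop))
  simp_rw [e2]
  rw [integral_sub]
  · rw [pd_mix ht2 u v hF c0, pd_mix htρ2 u v hF (m := fun _ => ε / 2) continuous_const]
    have cA := cont_AA ht2 u v hF
    have cB := cont_AA htρ2 u v hF
    have h1 : ∫ η : TT, (AA ((t + ρ) / 2) u v F η) ^ 2 ∂hm ≤ ∫ η : TT, (AA (t / 2) u v F η) ^ 2 ∂hm := by
      have := jensen hρ2 cA
      simp_rw [← AA_avg ht hρ u v hF] at this
      exact this
    have h2 : ∫ η : TT, (ε / 2) * (AA (t / 2) u v F η) ^ 2 ∂hm ≤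
        ∫ η : TT, (1 / 2 * h ρ (η + η)) * (AA (t / 2) u v F η) ^ 2 ∂hm := by
      apply integral_mono (cint (continuous_const.fun_mul (cA.pow 2))) (cint (c0.fun_mul (cA.pow 2)))
      intro η
      apply mul_le_mul_of_nonneg_right _ (sq_nonneg _)
      have := hmin (η + η)
      linarith
    rw [integral_const_mul] at h2
    rw [integral_const_mul]
    have h3 : ε / 2 * ∫ η : TT, (AA ((t + ρ) / 2) u v F η) ^ 2 ∂hm ≤
      ε / 2 * ∫ η : TT, (AA (t / 2) u v F η) ^ 2 ∂hm := mul_le_mul_of_nonneg_left h1 (by linarith)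
    linarith
  · exact cintG (contInt (f := fun σ τ : V → TT => F σ * F τ *
        (∫ η : TT, ((1 / 2) * h ρ (η + η)) * (gk (t / 2) η (σ u - σ v) * gk (t / 2) η (τ u - τ v)) ∂hm))
        k1 (mu V))
  · exact cintG (contInt (f := fun σ τ : V → TT => F σ * F τ *
        (∫ η : TT, (ε / 2) * (gk ((t + ρ) / 2) η (σ u - σ v) * gk ((t + ρ) / 2) η (τ u - τ v)) ∂hm))
        k2 (mu V))

end Pool.Agent.Lib.MP_84bec1_pr
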