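import Mathlib
import Pool.Agent.Lib.MP_84bec1_pr.Ginibre

set_option autoImplicit false

open MeasureTheory AddCircle

namespace Pool.Agent.Lib.MP_84bec1_pr

noncomputable def cosT (x : TT) : ℝ := (fourier 1 x : ℂ).re
noncomputable def sinT (x : TT) : ℝ := (fourier 1 x : ℂ).im

lemma continuous_cosT : Continuous cosT := Complex.continuous_re.comp (ContinuousMap.continuous _)
lemma continuous_sinT : Continuous sinT := Complex.continuous_im.comp (ContinuousMap.continuous _)

lemma cosT_sub (x y : TT) : cosT (x + y) - cosT (x - y) = -2 * (sinT x * sinT y) := by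
  unfold cosT sinT
  rw [sub_eq_add_neg x y, fourier_add_arg, fourier_add_arg, fourier_neg_arg, fourier_neg]
  simp only [Complex.mul_re, Complex.conj_re, Complex.conj_im]
  ring

lemma cosT_coe (θ : ℝ) : cosT (θ : TT) = Real.cos θ := by
  unfold cosT
  rw [fourier_coe_apply]
  have hpi : (Real.pi : ℂ) ≠ 0 := by exact_mod_cast Real.pi_ne_zero
  have : (2 * (Real.pi : ℂ) * Complex.I * ((1 : ℤ) : ℂ) * (θ : ℂ) / ((2 * Real.pi : ℝ) : ℂ)) = (θ : ℂ) * Complex.I := by
    push_cast
    field_simp
  rw [this, Complex.exp_mul_I]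
  simp [← Complex.ofReal_cos, ← Complex.ofReal_sin]

lemma abs_cosT_le (x : TT) : |cosT x| ≤ 1 := by
  unfold cosT
  exact (Complex.abs_re_le_norm _).trans (norm_fourier 1 x).le

lemma exists_half (y : TT) : ∃ z : TT, z + z = y := by
  obtain ⟨θ, rfl⟩ := QuotientAddGroup.mk_surjective y
  refine ⟨((θ / 2 : ℝ) : TT), ?_⟩
  change ((θ / 2 : ℝ) : TT) + ((θ / 2 : ℝ) : TT) = (θ : TT)
  rw [← AddCircle.coe_add]
  congr 1; ring

section G

variable {V : Type}

/-- product structure after duplication -/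
def Dup (R : (V → TT) → ℝ) : Prop :=
  ∃ (ι : Type) (_ : Fintype ι) (F : ι → (V → TT) → ℝ), (∀ i, Continuous (F i)) ∧
    ∀ s t, R (s + t) * R (s - t) = ∑ i, F i s * F i t

lemma dup_const (c : ℝ) : Dup (fun _ : V → TT => c) :=
  ⟨Unit, inferInstance, fun _ _ => c, fun _ => continuous_const, by simp⟩

lemma Dup.mul {R S : (V → TT) → ℝ} (hR : Dup R) (hS : Dup S) : Dup (fun σ => R σ * S σ) := by
  obtain ⟨ι, _, F, hF, hFR⟩ := hR
  obtain ⟨κ, _, G, hG, hGS⟩ := hS
  refine ⟨ι × κ, inferInstance, fun p σ => F p.1 σ * G p.2 σ, fun p => (hF p.1).fun_mul (hG p.2), ?_⟩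
  intro s t
  have : R (s + t) * S (s + t) * (R (s - t) * S (s - t)) =
      (R (s + t) * R (s - t)) * (S (s + t) * S (s - t)) := by ring
  rw [this, hFR, hGS, Finset.sum_mul_sum, Fintype.sum_prod_type]
  apply Finset.sum_congr rfl; intro i _
  apply Finset.sum_congr rfl; intro j _
  ring

lemma dup_h {t : ℝ} (ht : 0 < t) (u v : V) : Dup (fun σ : V → TT => h t (σ u - σ v)) := by
  have ht2 : 0 < t / 2 := by linarith
  have hc := continuous_h ht2
  refine ⟨Bool, inferInstance, fun b σ => Real.sqrt (1 / 2) *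
    h (t / 2) (σ u - σ v + (if b then pt else 0)), ?_, ?_⟩
  · intro b
    exact continuous_const.fun_mul (hc.comp (by fun_prop))
  · intro s r
    have e1 : (s + r) u - (s + r) v = (s u - s v) + (r u - r v) := by
      simp only [Pi.add_apply]; abel
    have e2 : (s - r) u - (s - r) v = (s u - s v) - (r u - r v) := by
      simp only [Pi.sub_apply]; abel
    simp only [e1, e2]
    rw [h_dup ht]
    have hs : Real.sqrt (1 / 2) * Real.sqrt (1 / 2) = 1 / 2 := Real.mul_self_sqrt (by norm_num)
    simp only [Fintype.sum_bool, if_true, Bool.false_eq_true, if_false, add_zero]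
    linear_combination (-(h (t / 2) (s u - s v) * h (t / 2) (r u - r v) +
      h (t / 2) (s u - s v + pt) * h (t / 2) (r u - r v + pt))) * hs

lemma dup_prod {ι : Type} (E : Finset ι) (R : ι → (V → TT) → ℝ) (hR : ∀ e ∈ E, Dup (R e)) :
    Dup (fun σ => ∏ e ∈ E, R e σ) := by
  classical
  induction E using Finset.induction_on with
  | empty => simpa using dup_const (V := V) 1
  | insert a s ha ih =>
    have h1 := ih (fun e he => hR e (Finset.mem_insert_of_mem he))
    have h2 := hR a (Finset.mem_insert_self a s)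
    have := h2.mul h1
    simpa [Finset.prod_insert ha] using this

/-- the duplication homomorphism -/
noncomputable def dupMap (V : Type) : ((V → TT) × (V → TT)) →+ ((V → TT) × (V → TT)) where
  toFun p := (p.1 + p.2, p.1 - p.2)
  map_zero' := by simp
  map_add' := by
    intro p q
    ext1
    · simp only [Prod.fst_add, Prod.snd_add]; abel
    · simp only [Prod.fst_add, Prod.snd_add]; abel

variable [Fintype V]

lemma dupMap_mp : MeasurePreserving (dupMap V) ((mu V).prod (mu V)) ((mu V).prod (mu V)) := by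
  apply AddMonoidHom.measurePreserving
  · change Continuous (fun p : (V → TT) × (V → TT) => (p.1 + p.2, p.1 - p.2))
    fun_prop
  · rintro ⟨a, b⟩
    choose half hhalf using exists_half
    refine ⟨(fun v => a v - half (a v - b v), fun v => half (a v - b v)), ?_⟩
    change ((fun v => a v - half (a v - b v)) + (fun v => half (a v - b v)),
      (fun v => a v - half (a v - b v)) - (fun v => half (a v - b v))) = (a, b)
    ext1
    · funext v; simp
    · funext v
      simp only [Pi.sub_apply]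
      have := hhalf (a v - b v)
      rw [sub_sub, this]; abel
  · rfl

lemma integral_dup {f : (V → TT) × (V → TT) → ℝ} (hf : Continuous f) :
    ∫ p, f (p.1 + p.2, p.1 - p.2) ∂((mu V).prod (mu V)) = ∫ p, f p ∂((mu V).prod (mu V)) := by
  have e : ∫ p, f p ∂((mu V).prod (mu V)) = ∫ p, f (dupMap V p) ∂((mu V).prod (mu V)) := by
    conv_lhs => rw [← (dupMap_mp (V := V)).map_eq]
    rw [integral_map dupMap_mp.measurable.aemeasurable hf.aestronglyMeasurable]
  rw [e]
  rfl

/-- Ginibre type comparison of two weights on the edge `uv` -/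
lemma ginibre (a b u v : V) {w₁ w₂ : TT → ℝ} (hw₁ : Continuous w₁) (hw₂ : Continuous w₂)
    {R : (V → TT) → ℝ} (hRc : Continuous R) (hR : Dup R) (hPD : PDk (Dk w₁ w₂)) :
    (∫ σ : V → TT, cosT (σ a - σ b) * (w₂ (σ u - σ v) * R σ) ∂(mu V)) *
      (∫ σ : V → TT, w₁ (σ u - σ v) * R σ ∂(mu V)) ≤
    (∫ σ : V → TT, cosT (σ a - σ b) * (w₁ (σ u - σ v) * R σ) ∂(mu V)) *
      (∫ σ : V → TT, w₂ (σ u - σ v) * R σ ∂(mu V)) := by
  obtain ⟨ι, _, F, hF, hFR⟩ := hR
  set c : (V → TT) → ℝ := fun σ => cosT (σ a - σ b) with hc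
  have cc : Continuous c := continuous_cosT.comp (by fun_prop)
  set W₁ : (V → TT) → ℝ := fun σ => w₁ (σ u - σ v) * R σ with hW₁
  set W₂ : (V → TT) → ℝ := fun σ => w₂ (σ u - σ v) * R σ with hW₂
  have cW₁ : Continuous W₁ := (hw₁.comp (by fun_prop)).fun_mul hRc
  have cW₂ : Continuous W₂ := (hw₂.comp (by fun_prop)).fun_mul hRc
  -- the antisymmetric integrand
  set J : (V → TT) × (V → TT) → ℝ := fun p => W₁ p.1 * W₂ p.2 - W₂ p.1 * W₁ p.2 with hJ
  have cJ : Continuous J := ((cW₁.comp continuous_fst).fun_mul (cW₂.comp continuous_snd)).fun_sub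
    ((cW₂.comp continuous_fst).fun_mul (cW₁.comp continuous_snd))
  have hA : (∫ σ, c σ * W₁ σ ∂(mu V)) * (∫ σ, W₂ σ ∂(mu V)) -
      (∫ σ, c σ * W₂ σ ∂(mu V)) * (∫ σ, W₁ σ ∂(mu V)) =
      ∫ p, c p.1 * J p ∂((mu V).prod (mu V)) := by
    rw [← integral_prod_mul, ← integral_prod_mul, ← integral_sub]
    · congr 1; ext p; simp only [hJ]; ring
    · exact cintGG (((cc.fun_mul cW₁).comp continuous_fst).fun_mul (cW₂.comp continuous_snd))
    · exact cintGG (((cc.fun_mul cW₂).comp continuous_fst).fun_mul (cW₁.comp continuous_snd))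
  have hB : ∫ p, c p.1 * J p ∂((mu V).prod (mu V)) = -∫ p, c p.2 * J p ∂((mu V).prod (mu V)) := by
    rw [← integral_prod_swap, ← integral_neg]
    congr 1; ext p
    simp only [hJ, Prod.swap]; ring
  have hC : 2 * ∫ p, c p.1 * J p ∂((mu V).prod (mu V)) =
      ∫ p, (c p.1 - c p.2) * J p ∂((mu V).prod (mu V)) := by
    have : ∀ p : (V → TT) × (V → TT), (c p.1 - c p.2) * J p = c p.1 * J p - c p.2 * J p := by
      intro p; ring
    simp_rw [this]
    have cc1 : Continuous (fun p : (V → TT) × (V → TT) => c p.1) := cc.comp continuous_fst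
    have cc2 : Continuous (fun p : (V → TT) × (V → TT) => c p.2) := cc.comp continuous_snd
    rw [integral_sub (cintGG (cc1.fun_mul cJ)) (cintGG (cc2.fun_mul cJ))]
    linarith
  have hD : ∫ p, (c p.1 - c p.2) * J p ∂((mu V).prod (mu V)) =
      ∫ p, (c (p.1 + p.2) - c (p.1 - p.2)) * J (p.1 + p.2, p.1 - p.2) ∂((mu V).prod (mu V)) :=
    (integral_dup (f := fun p => (c p.1 - c p.2) * J p)
      (((cc.comp continuous_fst).fun_sub (cc.comp continuous_snd)).fun_mul cJ)).symm
  have hE : ∀ p : (V → TT) × (V → TT),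
      (c (p.1 + p.2) - c (p.1 - p.2)) * J (p.1 + p.2, p.1 - p.2) =
      2 * ∑ i, (sinT (p.1 a - p.1 b) * F i p.1) * (sinT (p.2 a - p.2 b) * F i p.2) *
        Dk w₁ w₂ (p.1 u - p.1 v) (p.2 u - p.2 v) := by
    rintro ⟨s, r⟩
    have e1 : (s + r) a - (s + r) b = (s a - s b) + (r a - r b) := by
      simp only [Pi.add_apply]; abel
    have e2 : (s - r) a - (s - r) b = (s a - s b) - (r a - r b) := by
      simp only [Pi.sub_apply]; abel
    have e3 : (s + r) u - (s + r) v = (s u - s v) + (r u - r v) := by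
      simp only [Pi.add_apply]; abel
    have e4 : (s - r) u - (s - r) v = (s u - s v) - (r u - r v) := by
      simp only [Pi.sub_apply]; abel
    simp only [hc, hJ, hW₁, hW₂, e1, e2, e3, e4]
    rw [cosT_sub]
    have hsum : ∑ i, (sinT (s a - s b) * F i s) * (sinT (r a - r b) * F i r) *
        Dk w₁ w₂ (s u - s v) (r u - r v) =
        (sinT (s a - s b) * sinT (r a - r b) * Dk w₁ w₂ (s u - s v) (r u - r v)) *
          ∑ i, F i s * F i r := by
      rw [Finset.mul_sum]
      apply Finset.sum_congr rfl; intro i _; ring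
    rw [hsum, ← hFR]
    unfold Dk
    ring
  have hF' : 0 ≤ ∫ p, (c (p.1 + p.2) - c (p.1 - p.2)) * J (p.1 + p.2, p.1 - p.2) ∂((mu V).prod (mu V)) := by
    simp_rw [hE]
    have cD : Continuous (fun p : (V → TT) × (V → TT) => Dk w₁ w₂ (p.1 u - p.1 v) (p.2 u - p.2 v)) := by
      unfold Dk
      exact ((hw₁.comp (by fun_prop)).fun_mul (hw₂.comp (by fun_prop))).fun_sub
        ((hw₁.comp (by fun_prop)).fun_mul (hw₂.comp (by fun_prop)))
    have cS : Continuous (fun s : V → TT => sinT (s a - s b)) := continuous_sinT.comp (by fun_prop)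
    have cT : ∀ i, Continuous (fun p : (V → TT) × (V → TT) =>
        (sinT (p.1 a - p.1 b) * F i p.1) * (sinT (p.2 a - p.2 b) * F i p.2) *
        Dk w₁ w₂ (p.1 u - p.1 v) (p.2 u - p.2 v)) := by
      intro i
      exact (((cS.fun_mul (hF i)).comp continuous_fst).fun_mul
        ((cS.fun_mul (hF i)).comp continuous_snd)).fun_mul cD
    rw [integral_const_mul, integral_finsetSum _ (fun i _ => cintGG (cT i))]
    apply mul_nonneg (by norm_num)
    apply Finset.sum_nonneg
    intro i _
    rw [integral_prod _ (cintGG (cT i))]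
    exact hPD V u v (fun s => sinT (s a - s b) * F i s) (cS.fun_mul (hF i))
  have := hA
  linarith

end G

end Pool.Agent.Lib.MP_84bec1_pr
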