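import Mathlib
import Pool.Agent.Lib.MP_84bec1_pr.Ginibre2

set_option autoImplicit false

open MeasureTheory AddCircle

namespace Pool.Agent.Lib.MP_84bec1_pr

section Edge

variable {V : Type} [Fintype V]

lemma int_pos {f : (V → TT) → ℝ} (hf : Continuous f) (hpos : ∀ x, 0 < f x) : 0 < ∫ x, f x ∂(mu V) :=
  hf.integral_pos_of_hasCompactSupport_nonneg_nonzero (HasCompactSupport.of_compactSpace _)
    (fun x => (hpos x).le) (hpos (fun _ => 0)).ne'

/-- the one-edge mixture inequality -/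
lemma edge_mix (a b u v : V) {t ρ ε M p : ℝ} (ht : 0 < t) (hρ : 0 < ρ) (hε : 0 < ε)
    (hmin : ∀ x : TT, ε ≤ h ρ x) (hM : ∀ x : TT, h t x ≤ M) (hp : (1 - p) * M ≤ p * ε) (hp0 : 0 ≤ p)
    (hp1 : p ≤ 1) {R : (V → TT) → ℝ} (hRc : Continuous R) (hRpos : ∀ σ, 0 < R σ) (hR : Dup R) :
    (∫ σ : V → TT, cosT (σ a - σ b) * (h (t + ρ) (σ u - σ v) * R σ) ∂(mu V)) /
        (∫ σ : V → TT, h (t + ρ) (σ u - σ v) * R σ ∂(mu V)) ≤
    p * ((∫ σ : V → TT, cosT (σ a - σ b) * (h t (σ u - σ v) * R σ) ∂(mu V)) /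
        (∫ σ : V → TT, h t (σ u - σ v) * R σ ∂(mu V))) +
    (1 - p) * ((∫ σ : V → TT, cosT (σ a - σ b) * (1 * R σ) ∂(mu V)) /
        (∫ σ : V → TT, 1 * R σ ∂(mu V))) := by
  have htρ : 0 < t + ρ := by linarith
  have cc : Continuous (fun σ : V → TT => cosT (σ a - σ b)) := continuous_cosT.comp (by fun_prop)
  have cw : ∀ s : ℝ, 0 < s → Continuous (fun σ : V → TT => h s (σ u - σ v)) :=
    fun s hs => (continuous_h hs).comp (by fun_prop)
  have G1 := ginibre a b u v (continuous_h ht) (continuous_const (y := (1 : ℝ))) hRc hR (pd_one ht)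
  have G2 := ginibre a b u v (w₁ := fun x => h t x + ε) ((continuous_h ht).add continuous_const)
    (continuous_h htρ) hRc hR (pd_eps ht hρ hε.le hmin)
  have e1 : ∫ σ : V → TT, cosT (σ a - σ b) * ((h t (σ u - σ v) + ε) * R σ) ∂(mu V) =
      (∫ σ : V → TT, cosT (σ a - σ b) * (h t (σ u - σ v) * R σ) ∂(mu V)) +
      ε * (∫ σ : V → TT, cosT (σ a - σ b) * (1 * R σ) ∂(mu V)) := by
    rw [← integral_const_mul, ← integral_add]
    · congr 1; ext σ; ring
    · exact cintG (cc.fun_mul ((cw t ht).fun_mul hRc))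
    · exact cintG (continuous_const.fun_mul (cc.fun_mul (continuous_const.fun_mul hRc)))
  have e2 : ∫ σ : V → TT, (h t (σ u - σ v) + ε) * R σ ∂(mu V) =
      (∫ σ : V → TT, h t (σ u - σ v) * R σ ∂(mu V)) + ε * (∫ σ : V → TT, 1 * R σ ∂(mu V)) := by
    rw [← integral_const_mul, ← integral_add]
    · congr 1; ext σ; ring
    · exact cintG ((cw t ht).fun_mul hRc)
    · exact cintG (continuous_const.fun_mul (continuous_const.fun_mul hRc))
  rw [e1, e2] at G2
  have hZ1 : 0 < ∫ σ : V → TT, h t (σ u - σ v) * R σ ∂(mu V) :=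
    int_pos ((cw t ht).fun_mul hRc) (fun σ => mul_pos (h_pos ht _) (hRpos σ))
  have hZ0 : 0 < ∫ σ : V → TT, 1 * R σ ∂(mu V) :=
    int_pos (continuous_const.fun_mul hRc) (fun σ => by simpa using hRpos σ)
  have hZ' : 0 < ∫ σ : V → TT, h (t + ρ) (σ u - σ v) * R σ ∂(mu V) :=
    int_pos ((cw _ htρ).fun_mul hRc) (fun σ => mul_pos (h_pos htρ _) (hRpos σ))
  have hZM : ∫ σ : V → TT, h t (σ u - σ v) * R σ ∂(mu V) ≤ M * ∫ σ : V → TT, 1 * R σ ∂(mu V) := by
    rw [← integral_const_mul]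
    apply integral_mono (cintG ((cw t ht).fun_mul hRc))
      (cintG (continuous_const.fun_mul (continuous_const.fun_mul hRc)))
    intro σ
    simp only [one_mul]
    exact mul_le_mul_of_nonneg_right (hM _) (hRpos σ).le
  set N1 := ∫ σ : V → TT, cosT (σ a - σ b) * (h t (σ u - σ v) * R σ) ∂(mu V)
  set N0 := ∫ σ : V → TT, cosT (σ a - σ b) * (1 * R σ) ∂(mu V)
  set N' := ∫ σ : V → TT, cosT (σ a - σ b) * (h (t + ρ) (σ u - σ v) * R σ) ∂(mu V)
  set Z1 := ∫ σ : V → TT, h t (σ u - σ v) * R σ ∂(mu V)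
  set Z0 := ∫ σ : V → TT, 1 * R σ ∂(mu V)
  set Z' := ∫ σ : V → TT, h (t + ρ) (σ u - σ v) * R σ ∂(mu V)
  -- G1 : N0 * Z1 ≤ N1 * Z0
  -- G2 : N' * (Z1 + ε * Z0) ≤ (N1 + ε * N0) * Z'
  have hS : 0 < Z1 + ε * Z0 := by positivity
  have step1 : N' / Z' ≤ (N1 + ε * N0) / (Z1 + ε * Z0) := by
    rw [div_le_div_iff₀ hZ' hS]; exact G2
  have step2 : (N1 + ε * N0) / (Z1 + ε * Z0) ≤ p * (N1 / Z1) + (1 - p) * (N0 / Z0) := by
    have hx : N0 / Z0 ≤ N1 / Z1 := by
      rw [div_le_div_iff₀ hZ0 hZ1]; exact G1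
    have hN1 : N1 = N1 / Z1 * Z1 := by field_simp
    have hN0 : N0 = N0 / Z0 * Z0 := by field_simp
    rw [div_le_iff₀ hS]
    set x1 := N1 / Z1
    set x0 := N0 / Z0
    rw [hN1, hN0]
    have hkey : 0 ≤ p * (Z1 + ε * Z0) - Z1 := by
      have : (1 - p) * Z1 ≤ (1 - p) * (M * Z0) := mul_le_mul_of_nonneg_left hZM (by linarith)
      have h2 : (1 - p) * M * Z0 ≤ p * ε * Z0 := mul_le_mul_of_nonneg_right hp hZ0.le
      nlinarith
    nlinarith [mul_nonneg (sub_nonneg.mpr hx) hkey]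
  exact step1.trans step2

end Edge

/-- admissible weights -/
structure Good (w : TT → ℝ) : Prop where
  cont : Continuous w
  pos : ∀ x, 0 < w x
  dup : ∀ (V : Type) (u v : V), Dup (fun σ : V → TT => w (σ u - σ v))

lemma good_h {t : ℝ} (ht : 0 < t) : Good (h t) :=
  ⟨continuous_h ht, h_pos ht, fun _ u v => dup_h ht u v⟩

lemma good_one : Good (fun _ : TT => (1 : ℝ)) :=
  ⟨continuous_const, fun _ => one_pos, fun _ _ _ => dup_const 1⟩

section Model

variable {V : Type} [Fintype V] {𝓔 : Type} [DecidableEq 𝓔] (S T : 𝓔 → V)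

/-- product of the weights over the edges in `E` -/
noncomputable def WP (w : 𝓔 → TT → ℝ) (E : Finset 𝓔) (σ : V → TT) : ℝ :=
  ∏ e ∈ E, w e (σ (S e) - σ (T e))

noncomputable def Zf (w : 𝓔 → TT → ℝ) (E : Finset 𝓔) : ℝ := ∫ σ, WP S T w E σ ∂(mu V)

noncomputable def Nf (a b : V) (w : 𝓔 → TT → ℝ) (E : Finset 𝓔) : ℝ :=
  ∫ σ, cosT (σ a - σ b) * WP S T w E σ ∂(mu V)

noncomputable def Cf (a b : V) (w : 𝓔 → TT → ℝ) (E : Finset 𝓔) : ℝ := Nf S T a b w E / Zf S T w E

omit [Fintype V] [DecidableEq 𝓔] in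
lemma WP_cont {w : 𝓔 → TT → ℝ} {E : Finset 𝓔} (hw : ∀ e ∈ E, Good (w e)) : Continuous (WP S T w E) := by
  unfold WP
  apply continuous_finsetProd
  intro e he
  exact (hw e he).cont.comp (by fun_prop)

omit [Fintype V] [DecidableEq 𝓔] in
lemma WP_pos {w : 𝓔 → TT → ℝ} {E : Finset 𝓔} (hw : ∀ e ∈ E, Good (w e)) (σ : V → TT) :
    0 < WP S T w E σ := Finset.prod_pos (fun e he => (hw e he).pos _)

omit [Fintype V] [DecidableEq 𝓔] in
lemma WP_dup {w : 𝓔 → TT → ℝ} {E : Finset 𝓔} (hw : ∀ e ∈ E, Good (w e)) : Dup (WP S T w E) :=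
  dup_prod E (fun e σ => w e (σ (S e) - σ (T e))) (fun e he => (hw e he).dup V (S e) (T e))

omit [Fintype V] in
lemma WP_erase (w : 𝓔 → TT → ℝ) {E : Finset 𝓔} {e : 𝓔} (he : e ∈ E) (σ : V → TT) :
    WP S T w E σ = w e (σ (S e) - σ (T e)) * WP S T w (E.erase e) σ := by
  unfold WP
  exact (Finset.mul_prod_erase E (fun e => w e (σ (S e) - σ (T e))) he).symm

omit [Fintype V] [DecidableEq 𝓔] in
lemma WP_congr {w w' : 𝓔 → TT → ℝ} {E : Finset 𝓔} (hww : ∀ e ∈ E, w e = w' e) (σ : V → TT) :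
    WP S T w E σ = WP S T w' E σ := by
  unfold WP
  exact Finset.prod_congr rfl (fun e he => by rw [hww e he])

/-- the weights after revealing the edges of `E₁`, with open set `A` -/
noncomputable def Wt (t t' : ℝ) (E₁ A : Finset 𝓔) (e : 𝓔) : TT → ℝ :=
  if e ∈ E₁ then (if e ∈ A then h t else fun _ => 1) else h t'

omit [Fintype V] in
lemma good_Wt {t t' : ℝ} (ht : 0 < t) (ht' : 0 < t') (E₁ A : Finset 𝓔) (e : 𝓔) :
    Good (Wt t t' E₁ A e) := by
  unfold Wt
  split_ifs
  · exact good_h ht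
  · exact good_one
  · exact good_h ht'

/-- average over Bernoulli subsets -/
noncomputable def Av (p : ℝ) (E₁ : Finset 𝓔) (F : Finset 𝓔 → ℝ) : ℝ :=
  ∑ A ∈ E₁.powerset, (∏ e ∈ E₁, if e ∈ A then p else 1 - p) * F A

lemma Av_insert (p : ℝ) {E₁ : Finset 𝓔} {e : 𝓔} (he : e ∉ E₁) (F : Finset 𝓔 → ℝ) :
    Av p (insert e E₁) F = ∑ A ∈ E₁.powerset, (∏ f ∈ E₁, if f ∈ A then p else 1 - p) *
      (p * F (insert e A) + (1 - p) * F A) := by
  unfold Av
  rw [Finset.sum_powerset_insert he, ← Finset.sum_add_distrib]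
  apply Finset.sum_congr rfl
  intro A hA
  have hAE : A ⊆ E₁ := Finset.mem_powerset.mp hA
  have heA : e ∉ A := fun hh => he (hAE hh)
  rw [Finset.prod_insert he, Finset.prod_insert he, if_neg heA, if_pos (Finset.mem_insert_self e A)]
  have h1 : ∏ f ∈ E₁, (if f ∈ insert e A then p else 1 - p) = ∏ f ∈ E₁, (if f ∈ A then p else 1 - p) := by
    apply Finset.prod_congr rfl
    intro f hf
    have hfe : f ≠ e := fun hh => he (hh ▸ hf)
    simp [Finset.mem_insert, hfe]
  rw [h1]; ring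

/-- finite volume comparison -/
lemma finite_comparison (a b : V) {t ρ ε M p : ℝ} (ht : 0 < t) (hρ : 0 < ρ) (hε : 0 < ε)
    (hmin : ∀ x : TT, ε ≤ h ρ x) (hM : ∀ x : TT, h t x ≤ M) (hp : (1 - p) * M ≤ p * ε) (hp0 : 0 ≤ p)
    (hp1 : p ≤ 1) (E : Finset 𝓔) :
    ∀ E₁ ⊆ E, Cf S T a b (fun _ => h (t + ρ)) E ≤
      Av p E₁ (fun A => Cf S T a b (Wt t (t + ρ) E₁ A) E) := by
  have htρ : 0 < t + ρ := by linarith
  intro E₁
  induction E₁ using Finset.induction_on with
  | empty =>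
    intro _
    unfold Av
    simp only [Finset.powerset_empty, Finset.sum_singleton, Finset.prod_empty, one_mul]
    apply le_of_eq
    congr 1
  | insert e E₁ he ih =>
    intro hsub
    have heE : e ∈ E := hsub (Finset.mem_insert_self e E₁)
    have hsub' : E₁ ⊆ E := fun f hf => hsub (Finset.mem_insert_of_mem hf)
    refine (ih hsub').trans ?_
    rw [Av_insert p he]
    unfold Av
    apply Finset.sum_le_sum
    intro A hA
    have hAE : A ⊆ E₁ := Finset.mem_powerset.mp hA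
    have heA : e ∉ A := fun hh => he (hAE hh)
    apply mul_le_mul_of_nonneg_left
    · -- single edge inequality
      set R : (V → TT) → ℝ := WP S T (Wt t (t + ρ) E₁ A) (E.erase e) with hR
      have hgood : ∀ f ∈ E.erase e, Good (Wt t (t + ρ) E₁ A f) := fun f _ => good_Wt ht htρ _ _ f
      have hRc : Continuous R := WP_cont S T hgood
      have hRpos : ∀ σ, 0 < R σ := WP_pos S T hgood
      have hRd : Dup R := WP_dup S T hgood
      have key := edge_mix a b (S e) (T e) ht hρ hε hmin hM hp hp0 hp1 hRc hRpos hRd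
      have w0 : ∀ σ : V → TT, WP S T (Wt t (t + ρ) E₁ A) E σ =
          h (t + ρ) (σ (S e) - σ (T e)) * R σ := by
        intro σ
        rw [WP_erase S T _ heE]
        congr 1
        unfold Wt; rw [if_neg he]
      have hne : ∀ f ∈ E.erase e, f ≠ e := fun f hf => (Finset.mem_erase.mp hf).1
      have w1 : ∀ σ : V → TT, WP S T (Wt t (t + ρ) (insert e E₁) (insert e A)) E σ =
          h t (σ (S e) - σ (T e)) * R σ := by
        intro σ
        rw [WP_erase S T _ heE]
        congr 1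
        · unfold Wt; rw [if_pos (Finset.mem_insert_self _ _), if_pos (Finset.mem_insert_self _ _)]
        · apply WP_congr
          intro f hf
          have := hne f hf
          unfold Wt
          simp [Finset.mem_insert, this]
      have w2 : ∀ σ : V → TT, WP S T (Wt t (t + ρ) (insert e E₁) A) E σ = 1 * R σ := by
        intro σ
        rw [WP_erase S T _ heE]
        congr 1
        · unfold Wt; rw [if_pos (Finset.mem_insert_self _ _), if_neg heA]
        · apply WP_congr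
          intro f hf
          have := hne f hf
          unfold Wt
          simp [Finset.mem_insert, this]
      unfold Cf Nf Zf
      simp_rw [w0, w1, w2]
      exact key
    · apply Finset.prod_nonneg
      intro f _
      split_ifs <;> linarith

/-- adding one edge increases correlations -/
lemma add_edge (a b : V) {t : ℝ} (ht : 0 < t) {E : Finset 𝓔} {e : 𝓔} (he : e ∉ E) :
    Cf S T a b (fun _ => h t) E ≤ Cf S T a b (fun _ => h t) (insert e E) := by
  set R : (V → TT) → ℝ := WP S T (fun _ => h t) E with hR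
  have hgood : ∀ f ∈ E, Good (h t) := fun f _ => good_h ht
  have hRc : Continuous R := WP_cont S T (w := fun _ => h t) hgood
  have hRpos : ∀ σ, 0 < R σ := WP_pos S T (w := fun _ => h t) hgood
  have hRd : Dup R := WP_dup S T (w := fun _ => h t) hgood
  have G1 := ginibre a b (S e) (T e) (continuous_h ht) (continuous_const (y := (1 : ℝ))) hRc hRd (pd_one ht)
  have w1 : ∀ σ : V → TT, WP S T (fun _ => h t) (insert e E) σ = h t (σ (S e) - σ (T e)) * R σ := by
    intro σ
    simp only [hR]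
    unfold WP
    rw [Finset.prod_insert he]
  have cw : Continuous (fun σ : V → TT => h t (σ (S e) - σ (T e))) := (continuous_h ht).comp (by fun_prop)
  have hZ1 : 0 < ∫ σ : V → TT, h t (σ (S e) - σ (T e)) * R σ ∂(mu V) :=
    int_pos (cw.fun_mul hRc) (fun σ => mul_pos (h_pos ht _) (hRpos σ))
  have hZ0 : 0 < ∫ σ : V → TT, R σ ∂(mu V) := int_pos hRc hRpos
  unfold Cf Nf Zf
  simp_rw [w1]
  simp only [one_mul] at G1
  rw [div_le_div_iff₀ hZ0 hZ1]
  exact G1

/-- monotonicity: adding edges increases correlations -/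
lemma add_edges (a b : V) {t : ℝ} (ht : 0 < t) {E F : Finset 𝓔} (hEF : E ⊆ F) :
    Cf S T a b (fun _ => h t) E ≤ Cf S T a b (fun _ => h t) F := by
  have key : ∀ D : Finset 𝓔, Cf S T a b (fun _ => h t) E ≤ Cf S T a b (fun _ => h t) (E ∪ D) := by
    intro D
    induction D using Finset.induction_on with
    | empty => simp
    | insert e D he ih =>
      refine ih.trans ?_
      rw [Finset.union_insert]
      by_cases hmem : e ∈ E ∪ D
      · rw [Finset.insert_eq_self.mpr hmem]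
      · exact add_edge S T a b ht hmem
  have := key F
  rwa [Finset.union_eq_right.mpr hEF] at this

lemma abs_Cf_le (a b : V) {w : 𝓔 → TT → ℝ} {E : Finset 𝓔} (hw : ∀ e ∈ E, Good (w e)) :
    |Cf S T a b w E| ≤ 1 := by
  have hc := WP_cont S T hw
  have hpos := WP_pos S T hw
  have hZ : 0 < Zf S T w E := int_pos hc hpos
  have cc : Continuous (fun σ : V → TT => cosT (σ a - σ b)) := continuous_cosT.comp (by fun_prop)
  unfold Cf
  rw [abs_div, abs_of_pos hZ, div_le_one hZ]
  unfold Nf Zf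
  refine (abs_integral_le_integral_abs).trans ?_
  apply integral_mono (cintG (cc.fun_mul hc).abs) (cintG hc)
  intro σ
  simp only [abs_mul, abs_of_pos (hpos σ)]
  have := abs_cosT_le (σ a - σ b)
  nlinarith [hpos σ]

end Model

end Pool.Agent.Lib.MP_84bec1_pr
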