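import Mathlib
import Pool.Agent.Lib.MP_84bec1_pr.Finite

set_option autoImplicit false

open MeasureTheory ProbabilityTheory

namespace Pool.Agent.Lib.MP_84bec1_pr

noncomputable def percL (ι : Type) (p : unitInterval) : Measure (ι → Bool) :=
  Measure.infinitePi (fun _ : ι => bernoulliMeasure true false p)

instance (ι : Type) (p : unitInterval) : IsProbabilityMeasure (percL ι p) := by
  unfold percL; infer_instance

lemma ber_real (p : unitInterval) (b : Bool) :
    (bernoulliMeasure true false p).real {b} = if b = true then (p : ℝ) else 1 - p := by
  rw [bernoulliMeasure_real_apply p (measurableSet_singleton b)]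
  cases b <;> simp

lemma expect_formula {ι : Type} [DecidableEq ι] (p : unitInterval) (E : Finset ι) (G : Finset ι → ℝ) :
    ∫ ω : ι → Bool, G (E.filter (fun e => ω e = true)) ∂(percL ι p) = Av (p : ℝ) E G := by
  set toSet : (E → Bool) → Finset ι := fun x =>
    (Finset.univ.filter (fun e : E => x e = true)).map (Function.Embedding.subtype _) with htoSet
  have h1 : ∀ ω : ι → Bool, toSet (E.restrict ω) = E.filter (fun e => ω e = true) := by
    intro ω
    ext e
    simp only [htoSet, Finset.mem_map, Finset.mem_filter, Finset.mem_univ, true_and,
      Function.Embedding.subtype_apply]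
    constructor
    · rintro ⟨e', he', rfl⟩; exact ⟨e'.2, he'⟩
    · rintro ⟨h, h'⟩; exact ⟨⟨e, h⟩, h', rfl⟩
  simp_rw [← h1]
  unfold percL
  have h2 := integral_restrict_infinitePi (X := fun _ : ι => Bool)
    (μ := fun _ : ι => bernoulliMeasure true false p) (s := E) (f := fun x => G (toSet x))
    (measurable_of_finite _).aestronglyMeasurable
  refine h2.trans ?_
  rw [integral_fintype]
  · unfold Av
    refine Finset.sum_bij' (fun x _ => toSet x) (fun A _ => fun e : E => decide (e.1 ∈ A)) ?_ ?_ ?_ ?_ ?_
    · intro x _
      rw [Finset.mem_powerset]
      intro e he
      simp only [htoSet, Finset.mem_map, Finset.mem_filter, Finset.mem_univ, true_and,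
        Function.Embedding.subtype_apply, Subtype.exists, exists_and_right, exists_eq_right] at he
      exact he.1
    · intro A _; exact Finset.mem_univ _
    · intro x _
      funext e
      simp only [htoSet, Finset.mem_map, Finset.mem_filter, Finset.mem_univ, true_and,
        Function.Embedding.subtype_apply]
      by_cases hx : x e = true
      · rw [hx, decide_eq_true_eq]; exact ⟨e, hx, rfl⟩
      · have hx' : x e = false := by simpa using hx
        rw [hx', decide_eq_false_iff_not]
        rintro ⟨e', he', heq⟩
        have : e' = e := Subtype.ext heq
        rw [this] at he'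
        exact hx he'
    · intro A hA
      rw [Finset.mem_powerset] at hA
      ext e
      simp only [htoSet, Finset.mem_map, Finset.mem_filter, Finset.mem_univ, true_and,
        Function.Embedding.subtype_apply, decide_eq_true_eq]
      constructor
      · rintro ⟨e', he', rfl⟩; exact he'
      · intro he; exact ⟨⟨e, hA he⟩, he, rfl⟩
    · intro x _
      rw [smul_eq_mul]
      congr 1
      rw [measureReal_def, Measure.pi_singleton, ENNReal.toReal_prod]
      simp only [← measureReal_def]
      rw [← Finset.prod_coe_sort E]
      apply Finset.prod_congr rfl
      intro e _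
      rw [ber_real]
      have : (e.1 ∈ toSet x) ↔ x e = true := by
        simp only [htoSet, Finset.mem_map, Finset.mem_filter, Finset.mem_univ, true_and,
          Function.Embedding.subtype_apply]
        constructor
        · rintro ⟨e', he', heq⟩
          have : e' = e := Subtype.ext heq
          rw [this] at he'
          exact he'
        · intro hx; exact ⟨e, hx, rfl⟩
      simp only [this]
  · exact Integrable.of_finite

end Pool.Agent.Lib.MP_84bec1_pr
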